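import Mathlib
import Pool.Agent.Lib.MP_f81d8e_an.W.Main

set_option autoImplicit false

namespace Pool.Agent.Results.MP_f81d8e_an.InternalIffGap

open Pool.Agent.Lib.MP_f81d8e_an Pool.Agent.Lib.MP_f81d8e_an.W

/-- For a unitary image of any countable group in a tracial matrix ultraproduct, the relative
commutant is an ultraproduct of star-subalgebras (after a negligible change of the dimensions)
if and only if the image has weak spectral gap. -/
theorem result (G : Type) [Group G] [Countable G]
    (U : Ultrafilter ℕ) (hU : (U : Filter ℕ) ≤ Filter.cofinite)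
    (d : ℕ → ℕ) (hd : ∀ n, 0 < d n) (π : G →* unitary (Ultra U d)) :
    (∃ (m : ℕ → ℕ) (_ : ∀ n, 0 < m n)
      (h : Filter.Tendsto (fun n => (m n : ℝ) / (d n : ℝ)) (U : Filter ℕ) (nhds 1))
      (A : ∀ n, StarSubalgebra ℂ (Matrix (Fin (m n)) (Fin (m n)) ℂ)),
      {x : Ultra U m | ∀ g : G, Commute x (transport h (π g : Ultra U d))} =
        {x : Ultra U m | ∃ a : BddSeq m, (∀ n, a.entry n ∈ A n) ∧ Ultra.mk U a = x}) ↔
    WeakGap (fun g : G => (π g : Ultra U d)) :=
  ⟨fun ⟨_, hm, h, A, hA⟩ _ hε => gap_of_internal hU hd π hm h A hA hε,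
    fun gap => internal_of_gap hU hd π gap⟩

end Pool.Agent.Results.MP_f81d8e_an.InternalIffGap
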